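import Pool.Agent.N891.KS.Stm

set_option autoImplicit false

/-! Project KS (helper891), leaf HAUS (helper507): the unit sphere has positive and finite area. -/

open MeasureTheory Set Metric
open scoped ENNReal Topology ContDiff

noncomputable section

namespace Pool.Agent.N507.KS

open Pool.Agent.N891.KS

lemma norm_sq (x : E3) : ‖x‖ ^ 2 = x 0 ^ 2 + x 1 ^ 2 + x 2 ^ 2 := by
  rw [EuclideanSpace.norm_sq_eq, Fin.sum_univ_three]
  simp

lemma mem_sph {x : E3} : x ∈ sphere (0 : E3) 1 ↔ x 0 ^ 2 + x 1 ^ 2 + x 2 ^ 2 = 1 := by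
  rw [mem_sphere_zero_iff_norm, ← norm_sq]
  constructor
  · intro h
    rw [h]
    norm_num
  · intro h
    nlinarith [norm_nonneg x, sq_nonneg (‖x‖ - 1)]

/-- spherical coordinates -/
def sp (q : ℝ × ℝ) : E3 := !₂[Real.cos q.1 * Real.cos q.2, Real.sin q.1 * Real.cos q.2, Real.sin q.2]

lemma sp_smooth : ContDiff ℝ 1 sp := by
  unfold sp
  rw [contDiff_euclidean]
  intro i
  fin_cases i
  · show ContDiff ℝ 1 fun q : ℝ × ℝ => Real.cos q.1 * Real.cos q.2
    fun_prop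
  · show ContDiff ℝ 1 fun q : ℝ × ℝ => Real.sin q.1 * Real.cos q.2
    fun_prop
  · show ContDiff ℝ 1 fun q : ℝ × ℝ => Real.sin q.2
    fun_prop

/-- the box -/
def Bx : Set (ℝ × ℝ) := Icc (-Real.pi) Real.pi ×ˢ Icc (-Real.pi) Real.pi

lemma Bx_compact : IsCompact Bx := isCompact_Icc.prod isCompact_Icc

lemma Bx_convex : Convex ℝ Bx := (convex_Icc _ _).prod (convex_Icc _ _)

lemma sph_sub : sphere (0 : E3) 1 ⊆ sp '' Bx := by
  intro x hx
  rw [mem_sph] at hx
  have h2 : x 2 ^ 2 ≤ 1 := by nlinarith [sq_nonneg (x 0), sq_nonneg (x 1)]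
  have h2a : -1 ≤ x 2 := by nlinarith
  have h2b : x 2 ≤ 1 := by nlinarith
  have hn : ‖(⟨x 0, x 1⟩ : ℂ)‖ = Real.cos (Real.arcsin (x 2)) := by
    rw [Real.cos_arcsin, Complex.norm_def, Complex.normSq_apply]
    congr 1
    simp only
    linarith
  refine ⟨(Complex.arg ⟨x 0, x 1⟩, Real.arcsin (x 2)), ⟨⟨?_, ?_⟩, ?_, ?_⟩, ?_⟩
  · exact (Complex.neg_pi_lt_arg _).le
  · exact Complex.arg_le_pi _
  · have := Real.neg_pi_div_two_le_arcsin (x 2)
    have := Real.pi_pos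
    simp only
    linarith
  · have := Real.arcsin_le_pi_div_two (x 2)
    have := Real.pi_pos
    simp only
    linarith
  · have e1 := Complex.norm_mul_cos_arg (⟨x 0, x 1⟩ : ℂ)
    have e2 := Complex.norm_mul_sin_arg (⟨x 0, x 1⟩ : ℂ)
    rw [hn] at e1 e2
    unfold sp
    ext i
    fin_cases i
    · show Real.cos _ * Real.cos _ = x 0
      rw [mul_comm]
      exact e1
    · show Real.sin _ * Real.cos _ = x 1
      rw [mul_comm]
      exact e2
    · show Real.sin _ = x 2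
      exact Real.sin_arcsin h2a h2b

lemma finite_part : (μH[2] (sphere (0 : E3) 1) : ℝ≥0∞) < ⊤ := by
  have hd : ContinuousOn (fun q => fderiv ℝ sp q) Bx := (sp_smooth.continuous_fderiv (by norm_num)).continuousOn
  obtain ⟨C, hC⟩ := Bx_compact.exists_bound_of_continuousOn hd
  have hL : LipschitzOnWith (Real.toNNReal C) sp Bx := by
    apply Bx_convex.lipschitzOnWith_of_nnnorm_fderiv_le (𝕜 := ℝ)
    · intro q _
      exact (sp_smooth.differentiable (by norm_num)).differentiableAt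
    · intro q hq
      exact NNReal.le_toNNReal_of_coe_le (hC q hq)
  calc (μH[2] (sphere (0 : E3) 1) : ℝ≥0∞) ≤ μH[2] (sp '' Bx) := measure_mono sph_sub
    _ ≤ ((Real.toNNReal C : NNReal) : ℝ≥0∞) ^ (2 : ℝ) * μH[2] Bx := hL.hausdorffMeasure_image_le (by norm_num)
    _ < ⊤ := by
        rw [hausdorffMeasure_prod_real]
        apply ENNReal.mul_lt_top
        · exact ENNReal.rpow_lt_top_of_nonneg (by norm_num) ENNReal.coe_ne_top
        · exact Bx_compact.measure_lt_top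

/-- the projection -/
def pr (x : E3) : ℝ × ℝ := (x 0, x 1)

lemma coord_le (x : E3) (i : Fin 3) : |x i| ≤ ‖x‖ := by
  have := PiLp.norm_apply_le x i
  rwa [Real.norm_eq_abs] at this

lemma pr_lip : LipschitzWith 1 pr := by
  apply LipschitzWith.of_dist_le_mul
  intro x y
  rw [NNReal.coe_one, one_mul, Prod.dist_eq]
  apply max_le
  · show dist (x 0) (y 0) ≤ dist x y
    rw [Real.dist_eq, dist_eq_norm]
    have := coord_le (x - y) 0
    simpa using this
  · show dist (x 1) (y 1) ≤ dist x y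
    rw [Real.dist_eq, dist_eq_norm]
    have := coord_le (x - y) 1
    simpa using this

/-- the open square -/
def Sq : Set (ℝ × ℝ) := Ioo (-(1 / 2)) (1 / 2) ×ˢ Ioo (-(1 / 2)) (1 / 2)

lemma Sq_sub : Sq ⊆ pr '' sphere (0 : E3) 1 := by
  rintro ⟨a, b⟩ ⟨⟨h1, h2⟩, h3, h4⟩
  simp only at h1 h2 h3 h4
  have h5 : 0 ≤ 1 - a ^ 2 - b ^ 2 := by nlinarith
  refine ⟨!₂[a, b, √(1 - a ^ 2 - b ^ 2)], ?_, rfl⟩
  rw [mem_sph]
  show a ^ 2 + b ^ 2 + (√(1 - a ^ 2 - b ^ 2)) ^ 2 = 1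
  rw [Real.sq_sqrt h5]
  ring

lemma pos_part : 0 < (μH[2] (sphere (0 : E3) 1) : ℝ≥0∞) := by
  have hop : IsOpen Sq := isOpen_Ioo.prod isOpen_Ioo
  have hne : Sq.Nonempty := ⟨(0, 0), ⟨by norm_num, by norm_num⟩, by norm_num, by norm_num⟩
  have h1 : 0 < (μH[2] Sq : ℝ≥0∞) := by
    rw [hausdorffMeasure_prod_real]
    exact hop.measure_pos volume hne
  have h2 : (μH[2] (pr '' sphere (0 : E3) 1) : ℝ≥0∞) ≤
      ((1 : NNReal) : ℝ≥0∞) ^ (2 : ℝ) * μH[2] (sphere (0 : E3) 1) :=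
    pr_lip.hausdorffMeasure_image_le (by norm_num) _
  rw [ENNReal.coe_one, ENNReal.one_rpow, one_mul] at h2
  exact h1.trans_le ((measure_mono Sq_sub).trans h2)

theorem t_HAUS : Pool.Agent.N891.KS.S_HAUS := ⟨pos_part, finite_part⟩

end Pool.Agent.N507.KS
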